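import Pool.Agent.H77.BD.Targets

/-!
Row CEB of the board bct_modules (MP_9d0bb7_lc): the centralizer on the Cartan algebra.
-/

set_option autoImplicit false

open Set Matrix Pool.Agent.H77.BC Pool.Agent.H77.BD

namespace Pool.Agent.H19.BCT

variable {l : ℕ} {C : Matrix (Fin l) (Fin l) ℤ} {F : Type} [Field F]

lemma co_zero_fun (w : Fin l → ℤ) : co (0 : Root C → F) w = 0 := by
  unfold co
  split_ifs <;> rfl

lemma co_zero_arg (v : Root C → F) : co v (0 : Fin l → ℤ) = 0 := by
  apply co_not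
  rw [ip_zero_left]
  norm_num

lemma nf_hb (γ : Root C) (h : Fin l → F) : nf γ (hb h) = (- pr γ.1 h) • eb F γ := by
  refine Prod.ext ?_ ?_
  · funext δ
    simp only [nf, hb, eb, co_zero_fun, Prod.smul_fst, Pi.smul_apply, smul_eq_mul]
    split_ifs <;> ring
  · funext i
    simp only [nf, hb, eb, co_zero_fun, Prod.smul_snd, Pi.smul_apply, smul_eq_mul, Pi.zero_apply]
    ring

lemma pr_si (i : Fin l) (h : Fin l → F) : pr (si i) h = h i := by
  unfold pr si
  rw [Finset.sum_eq_single i]
  · simp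
  · intro j _ hj
    rw [Pi.single_eq_of_ne hj]
    simp
  · intro hi
    exact absurd (Finset.mem_univ i) hi

/-- Row CEB. -/
theorem pf_CEB (hBRB : T_BRB) (hEXT : T_EXT) (hPRN : T_PRN) (hCEA : T_CEA) : T_CEB := by
  intro l C hC _ F _ _ g α hg hcm
  obtain ⟨b1, b2, b3, b4, -⟩ := @hBRB l C hC F _
  obtain ⟨c1, c2⟩ := @hCEA l C hC F _ _ g α hg hcm
  obtain ⟨g1, g2, g3⟩ := hg
  -- the image under `nf`
  have hnf : ∀ (γ : Root C), 0 ≤ ip C γ.1 α.1 → ∀ h : Fin l → F,
      nf γ (g (hb h)) = (- pr γ.1 h) • eb F γ := by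
    intro γ hγ h
    have e1 := (@hEXT l C hC F _ _ g γ ⟨g1, g2, g3⟩ (hcm γ hγ) (hb h)).1
    rw [← e1, nf_hb, g2, c1 γ hγ]
  have hpr : ∀ (γ : Root C), 0 ≤ ip C γ.1 α.1 → ∀ h : Fin l → F,
      pr γ.1 (g (hb h)).2 = pr γ.1 h := by
    intro γ hγ h
    have e1 := congrFun (congrArg Prod.fst (hnf γ hγ h)) γ
    simp only [nf, sub_self, co_zero_arg, eb, Prod.smul_fst, Pi.smul_apply, smul_eq_mul,
      if_true] at e1
    linear_combination (-1 : F) * e1
  have hpr2 : ∀ (γ : Root C) (h : Fin l → F), pr γ.1 (g (hb h)).2 = pr γ.1 h := by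
    intro γ h
    by_cases h0 : 0 ≤ ip C γ.1 α.1
    · exact hpr γ h0 h
    · have h1 : 0 ≤ ip C (ng γ).1 α.1 := by
        rw [ng_val, ip_neg_left]
        omega
      have h2 := hpr (ng γ) h1 h
      rw [ng_val, pr_neg_left, pr_neg_left] at h2
      exact neg_injective h2
  have hsnd : ∀ h : Fin l → F, (g (hb h)).2 = h := by
    intro h
    funext i
    have h2 := hpr2 (sr hC i) h
    rw [sr_val, pr_si, pr_si] at h2
    exact h2
  have hfst : ∀ (h : Fin l → F) (δ : Root C), δ ≠ α → (g (hb h)).1 δ = 0 := by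
    intro h δ hδ
    by_cases h0 : ip C δ.1 α.1 ≤ 0
    · rw [c2 δ h0]
      rfl
    · have h1 := ip_le_one hC δ α hδ
      have h2 : ip C δ.1 α.1 = 1 := by omega
      have h3 : ip C α.1 δ.1 = 1 := by rw [ip_comm hC]; exact h2
      have h4 : (sb hC α δ h3).1 = α.1 - δ.1 := rfl
      have h5 : 0 ≤ ip C (sb hC α δ h3).1 α.1 := by
        rw [h4, ip_sub_left, ip_self, h2]
        norm_num
      have h6 : α ≠ sb hC α δ h3 := by
        intro h7
        have h8 : α.1 = α.1 - δ.1 := by rw [← h4, ← h7]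
        have h9 : δ.1 = 0 := by
          have := congrArg (fun z => α.1 - z) h8
          simp only [sub_self, sub_sub_cancel] at this
          exact this.symm
        exact root_ne_zero δ h9
      have e1 := congrFun (congrArg Prod.fst (hnf (sb hC α δ h3) h5 h)) α
      have e2 : α.1 - (sb hC α δ h3).1 = δ.1 := by rw [h4]; abel
      simp only [nf, eb, Prod.smul_fst, Pi.smul_apply, smul_eq_mul, if_neg h6, e2, co_val,
        mul_zero, add_zero] at e1
      exact (mul_eq_zero.1 e1).resolve_left (eps_ne_zero_F _ _)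
  -- the form of the image
  have hform : ∀ h : Fin l → F, g (hb h) = hb h + ((g (hb h)).1 α) • eb F α := by
    intro h
    refine Prod.ext ?_ ?_
    · funext δ
      simp only [hb, eb, Prod.fst_add, Prod.smul_fst, Pi.add_apply, Pi.zero_apply, Pi.smul_apply,
        smul_eq_mul]
      by_cases hδ : δ = α
      · subst hδ
        simp
      · rw [if_neg hδ]
        have := hfst h δ hδ
        simp only [hb] at this
        rw [this]
        ring
    · rw [hsnd h]
      simp [hb, eb]
  have hg0 : g 0 = 0 := by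
    have e1 := g2 0 0
    rw [zero_smul, zero_smul] at e1
    exact e1
  -- the bracket
  have hbr : ∀ h h' : Fin l → F,
      pr α.1 h * (g (hb h')).1 α - (g (hb h)).1 α * pr α.1 h' = 0 := by
    intro h h'
    have e1 : br (hb h) (hb h') = (0 : Sp C F) := by
      rw [b2]
      refine Prod.ext ?_ rfl
      funext γ
      simp [ah, hb]
    have e2 := g3 (hb h) (hb h')
    rw [e1, hg0, hform h, hform h', b3, b4, b1, b2] at e2
    generalize (g (hb h)).1 α = a at e2 ⊢
    generalize (g (hb h')).1 α = a' at e2 ⊢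
    have e3 := congrFun (congrArg Prod.fst e2) α
    simp only [ah, nf, hb, eb, Prod.fst_add, Prod.smul_fst, Pi.add_apply, Pi.zero_apply,
      Pi.smul_apply, smul_eq_mul, Prod.snd_add, Prod.smul_snd, sub_self, co_zero_arg, if_true,
      smul_zero, add_zero, Prod.fst_zero] at e3
    linear_combination (-1 : F) * e3
  obtain ⟨h0, hh0⟩ := (@hPRN l C hC F _).1 α
  refine ⟨-(g (hb h0)).1 α, fun h => ?_⟩
  have e1 := hbr h h0
  rw [hh0, mul_one] at e1
  have e2 : (g (hb h)).1 α = -(-(g (hb h0)).1 α * pr α.1 h) := by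
    linear_combination (-1 : F) * e1
  have e3 := hform h
  rw [e2, neg_smul, ← sub_eq_add_neg] at e3
  exact e3

end Pool.Agent.H19.BCT
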