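import Pool.Agent.H77.BD.Targets

/-!
Row STB of the board bct_modules (MP_9d0bb7_lc): the stabilizers.
-/

set_option autoImplicit false

open Set Matrix Pool.Agent.H77.BC Pool.Agent.H77.BD

namespace Pool.Agent.H19.BCT

/-- Row STB. -/
theorem pf_STB (hRKA : ∀ {M : Type} (U : RU M), RKA U) (hGRC : ∀ {M : Type} (U : RU M), GRC U) :
    T_STB := by
  intro G S _ _ U hP htr s
  have _ := hP.ful
  have _ := hP.fulS
  have _ := hP.dg
  have _ := hRKA U
  have hf : DFn U (fun g : G => g • s) :=
    DFn_comp (g := fun p : G × S => p.1 • p.2) hP.dact (DFn_pair DFn_id (DFn_const s))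
  have hD : U.D ((MulAction.stabilizer G s : Subgroup G) : Set G) := by
    change U.D {g : G | g • s = s}
    exact D_eqf hf (DFn_const s)
  have h1 := hGRC U ⊤ (MulAction.stabilizer G s) (fun g : G => g • s)
    (by rw [Subgroup.coe_top]; exact Ful.full) hD le_top hf (by
      intro a _ b _
      rw [MulAction.mem_stabilizer_iff, mul_smul, inv_smul_eq_iff]
      exact eq_comm)
  have e1 : (fun g : G => g • s) '' ((⊤ : Subgroup G) : Set G) = univ := by
    rw [Subgroup.coe_top, eq_univ_iff_forall]
    intro x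
    obtain ⟨g, hg⟩ := MulAction.exists_smul_eq G s x
    exact ⟨g, trivial, hg⟩
  rw [e1, Subgroup.coe_top] at h1
  exact ⟨hD, by omega⟩

end Pool.Agent.H19.BCT
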