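import Pool.Agent.H77.BD.Targets

/-!
Row XBR of the board bct_modules (MP_9d0bb7_lc): root elements preserve the bracket.
-/

set_option autoImplicit false

open Set Matrix Pool.Agent.H77.BC Pool.Agent.H77.BD

namespace Pool.Agent.H19.BCT

/-- Row XBR. -/
theorem pf_XBR (hXEB : T_XEB) (hBRB : T_BRB) (hSPB : T_SPB) (hXNA : T_XNA) (hXNB : T_XNB) :
    T_XBR := by
  intro l C hC F _ _ β t v w
  obtain ⟨b1, b2, b3, b4, -⟩ := @hBRB l C hC F _
  obtain ⟨x1, x2, x3, x4⟩ := @hXEB l C hC F _ β t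
  obtain ⟨n1, n2⟩ := @hXNB l C hC F _ β t w
  have b5 : ∀ u v z : Sp C F, br (u - v) z = br u z - br v z := by
    intro u v z
    have e : u - v = u + (-1 : F) • v := by rw [neg_one_smul, sub_eq_add_neg]
    rw [e, b3, b4, neg_one_smul, sub_eq_add_neg]
  refine @hSPB l C hC F _ (fun v => Xf β t (br v w)) (fun v => br (Xf β t v) (Xf β t w))
    ?_ ?_ ?_ ?_ ?_ ?_ v
  · intro u v
    simp only [b3, Xf_add]
  · intro a v
    simp only [b4, Xf_smul]
  · intro u v
    simp only [b3, Xf_add]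
  · intro a v
    simp only [b4, Xf_smul]
  · intro γ
    simp only [b1]
    by_cases h0 : 0 ≤ ip C β.1 γ.1
    · rw [x1 γ h0, b1]
      exact (@hXNA l C hC F _ _ β γ t w).1 h0
    · by_cases h1 : γ.1 = -β.1
      · have h2 : γ = ng β := Subtype.ext h1
        subst h2
        rw [n1, x3, b3, b5, b4, b4, b1, b2, b1]
      · have h2 := neg_one_le_ip hC β γ h1
        have h3 : ip C β.1 γ.1 = -1 := by omega
        have h4 : (ad hC β γ h3).1 = β.1 + γ.1 := rfl
        rw [(@hXNA l C hC F _ _ β γ t w).2 (ad hC β γ h3) h4, x2 γ (ad hC β γ h3) h4, b3, b4, b1,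
          b1]
  · intro h
    simp only [b2]
    rw [n2 h, x4 h, b5, b4, b1, b2]

end Pool.Agent.H19.BCT
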